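import Pool.Agent.Helper4.MCP.GoalsA

/-!
# Project MCP (MP_d8224a_co): packet NC (popular hits are coset hits)
-/

set_option autoImplicit false

namespace Pool.Agent.Helper93.MCP

open Finset Pool.Agent.Helper4.MCP Pool.Agent.Helper26.MCE Pool.Agent.Helper87.MC

section descent

variable {G : Type} [AddCommGroup G] [Fintype G]

theorem card_half {V' V : AddSubgroup G} (h : V' < V) : 2 * Nat.card V' ≤ Nat.card V := by
  obtain ⟨k, hk⟩ := AddSubgroup.card_dvd_of_le h.le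
  have hV : 0 < Nat.card V := Nat.card_pos
  have hk0 : k ≠ 0 := by
    rintro rfl
    omega
  have hk1 : k ≠ 1 := by
    rintro rfl
    exact h.ne (AddSubgroup.eq_of_le_of_card_ge h.le (by rw [hk, mul_one]))
  rw [hk, mul_comm]
  exact Nat.mul_le_mul_left _ (by omega)

/-- A subgroup with nearly all of the mass, such that no proper subgroup has nearly all of its mass. -/
theorem descent (f : AddSubgroup G → ℝ) (κ : ℝ) (hκ0 : 0 ≤ κ) (hκ : κ ≤ 1) (hf : ∀ V, 0 ≤ f V) :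
    ∀ (n : ℕ) (V : AddSubgroup G), Nat.card V ≤ 2 ^ n →
      ∃ V₁ : AddSubgroup G, (1 - κ) ^ n * f V ≤ f V₁ ∧ ∀ V' < V₁, f V' ≤ (1 - κ) * f V₁ := by
  intro n
  induction n with
  | zero =>
    intro V hV
    refine ⟨V, by simp, fun V' h ↦ ?_⟩
    exfalso
    have h1 := card_half h
    have h2 : 0 < Nat.card V' := Nat.card_pos
    rw [pow_zero] at hV
    omega
  | succ n ih =>
    intro V hV
    have h1 : 0 ≤ 1 - κ := by linarith
    by_cases h : ∀ V' < V, f V' ≤ (1 - κ) * f V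
    · refine ⟨V, ?_, h⟩
      have h2 : (1 - κ) ^ (n + 1) ≤ 1 := pow_le_one₀ h1 (by linarith)
      exact (mul_le_mul_of_nonneg_right h2 (hf V)).trans_eq (one_mul _)
    · push Not at h
      obtain ⟨V', hV', hf'⟩ := h
      have h3 := card_half hV'
      obtain ⟨V₁, e1, e2⟩ := ih V' (by rw [pow_succ] at hV; omega)
      refine ⟨V₁, ?_, e2⟩
      calc (1 - κ) ^ (n + 1) * f V = (1 - κ) ^ n * ((1 - κ) * f V) := by ring
        _ ≤ (1 - κ) ^ n * f V' := mul_le_mul_of_nonneg_left hf'.le (pow_nonneg h1 n)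
        _ ≤ f V₁ := e1

end descent

/-! ### Numbers -/

theorem num1 {q : ℝ} (hq : 1000 ≤ q) : q ^ 40 * (2 / (1 / q ^ 18)) * (1 / q ^ 160) ≤ 1 / 8 := by
  have h0 : 0 < q := by linarith
  have e : q ^ 40 * (2 / (1 / q ^ 18)) * (1 / q ^ 160) = 2 / q ^ 102 := by
    field_simp
  rw [e, div_le_div_iff₀ (by positivity) (by norm_num)]
  have : (1 : ℝ) ≤ q ^ 101 := one_le_pow₀ (by linarith)
  have h2 : q ^ 102 = q ^ 101 * q := by ring
  rw [h2]
  nlinarith

theorem num2 {q : ℝ} (hq : 1000 ≤ q) :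
    6 * (q ^ 40) ^ 2 * (2 / (1 / q ^ 18)) ^ 2 * (1 / q ^ 160) = 24 / q ^ 44 := by
  have h0 : 0 < q := by linarith
  field_simp
  ring

theorem num3 {q : ℝ} (hq : 1000 ≤ q) : 128 * q ≤ (1 / q ^ 19) ^ 2 * q ^ 40 := by
  have h0 : 0 < q := by linarith
  have e : (1 / q ^ 19) ^ 2 * q ^ 40 = q ^ 2 := by
    field_simp
  rw [e]
  nlinarith

theorem num4 {q : ℝ} (hq : 1000 ≤ q) :
    128 * (1 / q ^ 160) * (1 + q) ≤ 1 / q ^ 19 * (1 / q ^ 18) := by
  have h0 : 0 < q := by linarith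
  have e : 128 * (1 / q ^ 160) * (1 + q) = 128 * (1 + q) / q ^ 160 := by ring
  have e' : 1 / q ^ 19 * (1 / q ^ 18) = 1 / q ^ 37 := by
    field_simp
  rw [e, e', div_le_div_iff₀ (by positivity) (by positivity)]
  have h1 : q ^ 160 = q ^ 37 * (q ^ 2 * q ^ 121) := by ring
  have h2 : (1 : ℝ) ≤ q ^ 121 := one_le_pow₀ (by linarith)
  have h3 : 128 * (1 + q) ≤ q ^ 2 := by nlinarith
  have h4 : 128 * (1 + q) ≤ q ^ 2 * q ^ 121 :=
    h3.trans (le_mul_of_one_le_right (by positivity) h2)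
  rw [h1, one_mul, mul_comm (128 * (1 + q))]
  exact mul_le_mul_of_nonneg_left h4 (by positivity)

theorem num5 {q : ℝ} (hq : 1000 ≤ q) :
    1 / q ^ 160 + 1 / q ^ 18 + 1 / q ^ 18 + 192 / q ^ 25 ≤ 1 / q ^ 17 := by
  have h0 : 0 < q := by linarith
  have a1 : 1 / q ^ 160 ≤ 1 / q ^ 18 :=
    one_div_le_one_div_of_le (by positivity) (pow_le_pow_right₀ (by linarith) (by norm_num))
  have a2 : 192 / q ^ 25 ≤ 192 / q ^ 18 :=
    div_le_div_of_nonneg_left (by norm_num) (by positivity)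
      (pow_le_pow_right₀ (by linarith) (by norm_num))
  have a3 : 195 / q ^ 18 ≤ 1 / q ^ 17 := by
    rw [div_le_div_iff₀ (by positivity) (by positivity)]
    have : q ^ 18 = q ^ 17 * q := by ring
    rw [this]
    have h17 : 0 < q ^ 17 := by positivity
    nlinarith
  have a4 : (195 : ℝ) / q ^ 18 = 1 / q ^ 18 + 1 / q ^ 18 + 1 / q ^ 18 + 192 / q ^ 18 := by ring
  linarith

/-- The descent with `(1 - κ)^Q ≥ 1/2`. -/
theorem num6 {q : ℝ} (hq : 1000 ≤ q) : q * (1 / q ^ 19) = 1 / q ^ 18 := by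
  have h0 : 0 < q := by linarith
  field_simp

theorem num7 {q : ℝ} (hq : 1000 ≤ q) : 24 / q ^ 44 * (8 * q ^ 19) = 192 / q ^ 25 := by
  have h0 : 0 < q := by linarith
  rw [div_mul_eq_mul_div, div_eq_div_iff (by positivity) (by positivity)]
  ring

open Classical in
/-- **NC** (popular hits are coset hits). -/
theorem goalNC (h1 : G_CUBE) (h2 : G_NCX) : G_NC := by
  intro G _ _ D J μ Q hQ hG hJD hL
  obtain ⟨q, hq⟩ : ∃ q : ℝ, q = (Q : ℝ) := ⟨_, rfl⟩
  have hq1 : (1000 : ℝ) ≤ q := by rw [hq]; exact_mod_cast hQ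
  have hq0 : 0 < q := by linarith
  rw [← hq] at hL ⊢
  have hκ0 : 0 < 1 / q ^ 19 := by positivity
  have hκ1 : 1 / q ^ 19 ≤ 1 := by
    rw [div_le_one (by positivity)]
    exact one_le_pow₀ (by linarith)
  have hb0 : 0 < 1 / q ^ 18 := by positivity
  have hμ := hL.pos
  -- masses
  obtain ⟨mm, hmm⟩ : ∃ mm : G → AddSubgroup G → ℝ, mm = fun x V ↦
    ∑ w : G, if w ∈ V ∧ x + w ∈ J then μ w else 0 := ⟨_, rfl⟩
  have hmm0 : ∀ x V, 0 ≤ mm x V := fun x V ↦ by
    rw [hmm]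
    exact sum_nonneg fun w _ ↦ by split_ifs; exacts [hμ w, le_rfl]
  have hmm1 : ∀ x V, mm x V ≤ 1 := fun x V ↦ by
    rw [hmm, ← hL.sum]
    exact sum_le_sum fun w _ ↦ by split_ifs; exacts [le_rfl, hμ w]
  -- the subgroups
  have hdes : ∀ x : G, ∃ V : AddSubgroup G, (1 - 1 / q ^ 18) * mm x ⊤ ≤ mm x V ∧
      ∀ V' < V, mm x V' ≤ (1 - 1 / q ^ 19) * mm x V := by
    intro x
    obtain ⟨V, e1, e2⟩ := descent (mm x) (1 / q ^ 19) hκ0.le hκ1 (hmm0 x) Q ⊤ (by
      rw [AddSubgroup.card_top, Nat.card_eq_fintype_card]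
      exact hG)
    refine ⟨V, le_trans (mul_le_mul_of_nonneg_right ?_ (hmm0 x ⊤)) e1, e2⟩
    have h3 := one_add_mul_le_pow (a := -(1 / q ^ 19)) (by linarith) Q
    have h4 : 1 + (Q : ℝ) * -(1 / q ^ 19) = 1 - 1 / q ^ 18 := by
      rw [← hq, mul_neg, num6 hq1]
      ring
    rw [h4] at h3
    exact h3
  choose V hV1 hV2 using hdes
  -- the popular points
  obtain ⟨Jb, hJb⟩ : ∃ Jb : Finset G, Jb = J.filter fun x ↦ 1 / q ^ 18 ≤ mm x ⊤ := ⟨_, rfl⟩
  have hJbJ : Jb ⊆ J := by rw [hJb]; exact filter_subset _ _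
  have hJbm : ∀ x ∈ Jb, 1 / q ^ 18 ≤ mm x ⊤ := fun x hx ↦ by
    rw [hJb, mem_filter] at hx
    exact hx.2
  have hb12 : 1 / q ^ 18 ≤ 1 / 2 := by
    refine one_div_le_one_div_of_le (by norm_num) ?_
    have : q ≤ q ^ 18 := le_self_pow₀ (by linarith) (by norm_num)
    linarith
  have hmV : ∀ x ∈ Jb, 1 / q ^ 18 / 2 ≤ mm x (V x) := fun x hx ↦ by
    have e1 := hV1 x
    have e2 := hJbm x hx
    have e3 : (1 / 2 : ℝ) * mm x ⊤ ≤ (1 - 1 / q ^ 18) * mm x ⊤ :=
      mul_le_mul_of_nonneg_right (by linarith) (hmm0 x ⊤)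
    linarith
  have hmV0 : ∀ x ∈ Jb, 0 < mm x (V x) := fun x hx ↦ lt_of_lt_of_le (by positivity) (hmV x hx)
  have hr : ∀ x ∈ Jb, 1 / mm x (V x) ≤ 2 / (1 / q ^ 18) := fun x hx ↦ by
    rw [div_le_div_iff₀ (hmV0 x hx) hb0]
    linarith [hmV x hx]
  have hr0 : ∀ x, 0 ≤ 1 / mm x (V x) := fun x ↦ by
    have := hmm0 x (V x)
    positivity
  -- the laws
  obtain ⟨P, hP⟩ : ∃ P : G → G → ℝ, P = fun x w ↦
    if w ∈ V x ∧ x + w ∈ J then 1 / mm x (V x) * μ w else 0 := ⟨_, rfl⟩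
  have hPw : ∀ x w, P x w = if w ∈ V x ∧ x + w ∈ J then 1 / mm x (V x) * μ w else 0 :=
    fun x w ↦ by rw [hP]
  have hPs : ∀ x ∈ Jb, ∑ w, P x w = 1 := fun x hx ↦ by
    have e : ∑ w, P x w = 1 / mm x (V x) * mm x (V x) := by
      rw [hP, hmm, mul_sum]
      refine sum_congr rfl fun w _ ↦ ?_
      simp only
      split_ifs
      · rfl
      · rw [mul_zero]
    rw [e]
    exact one_div_mul_cancel (hmV0 x hx).ne'
  have hP0 : ∀ x w, 0 ≤ P x w := fun x w ↦ by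
    rw [hPw]
    split_ifs
    · exact mul_nonneg (hr0 x) (hμ w)
    · exact le_rfl
  have hPc : ∀ x ∈ Jb, ∀ w, P x w ≤ 2 / (1 / q ^ 18) * μ w := fun x hx w ↦ by
    rw [hPw]
    split_ifs
    · exact mul_le_mul_of_nonneg_right (hr x hx) (hμ w)
    · exact mul_nonneg (by positivity) (hμ w)
  have hPJ : ∀ x ∈ Jb, ∀ w, P x w ≠ 0 → x + w ∈ J := fun x _ w hw ↦ by
    rw [hPw] at hw
    by_contra hc
    exact hw (if_neg fun h ↦ hc h.2)
  have hcast : ((Q ^ 40 : ℕ) : ℝ) = q ^ 40 := by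
    rw [hq]
    push_cast
    rfl
  have hcube := h1 G D J Jb μ (1 / q ^ 160) (2 / (1 / q ^ 18)) P (Q ^ 40) hJD hJbJ hL
    (by positivity) (by
      rw [div_le_one (by positivity)]
      exact one_le_pow₀ (by linarith))
    (by
      rw [le_div_iff₀ hb0]
      linarith)
    (by rw [hcast]; exact num1 hq1) (fun x _ w ↦ hP0 x w) hPs hPc hPJ
  rw [hcast, num2 hq1] at hcube
  obtain ⟨ex, hex⟩ : ∃ ex : G → ℝ, ex = fun x ↦ ∑ u : Fin (Q ^ 40) → G,
    (if ∃ Λ : Finset (Fin (Q ^ 40)), x + ∑ i ∈ Λ, u i ∉ D then ∏ i, P x (u i) else 0) := ⟨_, rfl⟩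
  have hex0 : ∀ x, 0 ≤ ex x := fun x ↦ by
    rw [hex]
    exact sum_nonneg fun u _ ↦ by
      split_ifs
      · exact prod_nonneg fun i _ ↦ hP0 x _
      · exact le_rfl
  have hcube' : ∑ x ∈ Jb, ex x ≤ 24 / q ^ 44 * J.card := by
    rw [hex]
    exact hcube
  -- the exceptional points
  obtain ⟨Ex, hEx⟩ : ∃ Ex : Finset G, Ex = Jb.filter fun x ↦ 1 / q ^ 19 / 8 < ex x := ⟨_, rfl⟩
  have hExc : (Ex.card : ℝ) ≤ 192 / q ^ 25 * J.card := by
    have e1 : (Ex.card : ℝ) * (1 / q ^ 19 / 8) ≤ ∑ x ∈ Jb, ex x := by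
      calc (Ex.card : ℝ) * (1 / q ^ 19 / 8) = ∑ x ∈ Ex, (1 / q ^ 19 / 8) := by
            rw [sum_const, nsmul_eq_mul]
        _ ≤ ∑ x ∈ Ex, ex x := sum_le_sum fun x hx ↦ by
            rw [hEx, mem_filter] at hx
            exact hx.2.le
        _ ≤ ∑ x ∈ Jb, ex x := sum_le_sum_of_subset_of_nonneg (by rw [hEx]; exact filter_subset _ _)
            fun x _ _ ↦ hex0 x
    have e2 := e1.trans hcube'
    have e3 : 1 / q ^ 19 / 8 * (8 * q ^ 19) = 1 := by
      have : q ^ 19 ≠ 0 := by positivity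
      rw [div_div, div_mul_eq_mul_div, one_mul, mul_comm (q ^ 19) 8]
      exact div_self (by positivity)
    calc (Ex.card : ℝ) = (Ex.card : ℝ) * (1 / q ^ 19 / 8) * (8 * q ^ 19) := by
          rw [mul_assoc, e3, mul_one]
      _ ≤ 24 / q ^ 44 * J.card * (8 * q ^ 19) := mul_le_mul_of_nonneg_right e2 (by positivity)
      _ = 24 / q ^ 44 * (8 * q ^ 19) * J.card := by ring
      _ = 192 / q ^ 25 * J.card := by rw [num7 hq1]
  -- the good points
  have hgood : ∀ x ∈ Jb, x ∉ Ex → ∀ h ∈ V x, x + h ∈ D := by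
    intro x hx hxE
    have hexx : ex x ≤ 1 / q ^ 19 / 8 := by
      by_contra hc
      exact hxE (by rw [hEx, mem_filter]; exact ⟨hx, not_le.1 hc⟩)
    rw [hex] at hexx
    refine h2 G D J μ (P x) (1 / q ^ 160) (1 / q ^ 19) (1 / q ^ 18) (1 / mm x (V x)) (Q ^ 40) Q x
      (V x) hG (by omega) hJD hL (by positivity) hκ0 hκ1 hb0 (hJbJ hx) (hPw x) (hPs x hx) (hr0 x)
      (hr x hx) ?_ hexx ?_ ?_
    · intro V' hV'
      have e1 := hV2 x V' hV'
      have e2 : (∑ w : G, if w ∈ V' then P x w else 0) = 1 / mm x (V x) * mm x V' := by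
        rw [hP, hmm, mul_sum]
        refine sum_congr rfl fun w _ ↦ ?_
        simp only
        by_cases hw : w ∈ V'
        · have hw' : w ∈ V x := hV'.le hw
          simp only [hw, hw', true_and, if_true]
          split_ifs
          · rfl
          · rw [mul_zero]
        · simp only [hw, false_and, if_false, mul_zero]
      rw [e2]
      calc 1 / mm x (V x) * mm x V' ≤ 1 / mm x (V x) * ((1 - 1 / q ^ 19) * mm x (V x)) :=
            mul_le_mul_of_nonneg_left e1 (hr0 x)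
        _ = 1 - 1 / q ^ 19 := by
            have := (hmV0 x hx).ne'
            field_simp
    · rw [← hq, hcast]
      exact num3 hq1
    · rw [← hq]
      exact num4 hq1
  -- the choice
  refine ⟨fun x ↦ if x ∈ Jb ∧ x ∉ Ex then V x else ⊥, ?_, ?_⟩
  · intro x hx h hh
    beta_reduce at hh
    by_cases hc : x ∈ Jb ∧ x ∉ Ex
    · rw [if_pos hc] at hh
      exact hgood x hc.1 hc.2 h hh
    · rw [if_neg hc, AddSubgroup.mem_bot] at hh
      rw [hh, add_zero]
      exact hJD hx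
  · have hpt : ∀ x ∈ J, (∑ w : G, (if x + w ∈ D ∧
        w ∉ (if x ∈ Jb ∧ x ∉ Ex then V x else ⊥ : AddSubgroup G) then μ w else 0)) ≤
        (1 / q ^ 160 + 1 / q ^ 18 + 1 / q ^ 18) + if x ∈ Ex then 1 else 0 := by
      intro x hx
      have e1 := hL.leak x hx
      have split : (∑ w : G, (if x + w ∈ D ∧
          w ∉ (if x ∈ Jb ∧ x ∉ Ex then V x else ⊥ : AddSubgroup G) then μ w else 0)) ≤
          (∑ w : G, if x + w ∈ D ∧ x + w ∉ J then μ w else 0) +
            ∑ w : G, (if x + w ∈ J ∧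
              w ∉ (if x ∈ Jb ∧ x ∉ Ex then V x else ⊥ : AddSubgroup G) then μ w else 0) := by
        rw [← sum_add_distrib]
        refine sum_le_sum fun w _ ↦ ?_
        have hw := hμ w
        by_cases c1 : x + w ∈ D <;> by_cases c2 : x + w ∈ J <;>
          by_cases c3 : w ∈ (if x ∈ Jb ∧ x ∉ Ex then V x else ⊥ : AddSubgroup G) <;>
          simp [c1, c2, c3, hw]
      have top : ∀ W : AddSubgroup G, (∑ w : G, (if x + w ∈ J ∧ w ∉ W then μ w else 0)) =
          mm x ⊤ - mm x W := by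
        intro W
        rw [hmm]
        simp only
        rw [← sum_sub_distrib]
        refine sum_congr rfl fun w _ ↦ ?_
        by_cases c2 : x + w ∈ J <;> by_cases c3 : w ∈ W <;> simp [c2, c3]
      rw [top] at split
      by_cases hE : x ∈ Ex
      · rw [if_pos hE]
        have := hmm1 x ⊤
        have := hmm0 x (if x ∈ Jb ∧ x ∉ Ex then V x else ⊥ : AddSubgroup G)
        linarith
      · rw [if_neg hE]
        by_cases hxb : x ∈ Jb
        · rw [if_pos (⟨hxb, hE⟩ : x ∈ Jb ∧ x ∉ Ex)] at split ⊢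
          have e2 := hV1 x
          have e3 : 1 / q ^ 18 * mm x ⊤ ≤ 1 / q ^ 18 * 1 :=
            mul_le_mul_of_nonneg_left (hmm1 x ⊤) hb0.le
          linarith
        · have e2 : mm x ⊤ < 1 / q ^ 18 := by
            by_contra hc
            exact hxb (by rw [hJb, mem_filter]; exact ⟨hx, not_lt.1 hc⟩)
          have := hmm0 x (if x ∈ Jb ∧ x ∉ Ex then V x else ⊥ : AddSubgroup G)
          linarith
    have hExJ : Ex ⊆ J := by
      rw [hEx]
      exact (filter_subset _ _).trans hJbJ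
    calc _ ≤ ∑ x ∈ J, ((1 / q ^ 160 + 1 / q ^ 18 + 1 / q ^ 18) + if x ∈ Ex then 1 else 0) :=
          sum_le_sum hpt
      _ = (1 / q ^ 160 + 1 / q ^ 18 + 1 / q ^ 18) * J.card + Ex.card := by
          rw [sum_add_distrib, sum_const, nsmul_eq_mul, sum_boole, filter_mem_eq_inter,
            inter_eq_right.2 hExJ]
          ring
      _ ≤ (1 / q ^ 160 + 1 / q ^ 18 + 1 / q ^ 18) * J.card + 192 / q ^ 25 * J.card := by
          linarith
      _ = (1 / q ^ 160 + 1 / q ^ 18 + 1 / q ^ 18 + 192 / q ^ 25) * J.card := by ring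
      _ ≤ 1 / q ^ 17 * J.card := mul_le_mul_of_nonneg_right (num5 hq1) (by positivity)

end Pool.Agent.Helper93.MCP
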